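import Mathlib
import Pool.Agent.V11214.Cont
import Pool.Agent.Results.MP_fe892a_gt.ClosedCounterexample

set_option autoImplicit false

open Set Topology

namespace Pool.Agent.Results.MP_3d59a4_gt.SolenoidFactor

/-- `K` is a subcontinuum: a nonempty, compact, connected subset. -/
def Subcontinuum {S : Type*} [TopologicalSpace S] (K : Set S) : Prop :=
  IsCompact K ∧ IsConnected K

/-- `K` is the union of two proper subcontinua. -/
def Decomposable {S : Type*} [TopologicalSpace S] (K : Set S) : Prop :=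
  ∃ A B : Set S, Subcontinuum A ∧ Subcontinuum B ∧ A ≠ K ∧ B ≠ K ∧ A ∪ B = K

/-- Every nondegenerate subcontinuum of `K` is decomposable. -/
def HereditarilyDecomposable {S : Type*} [TopologicalSpace S] (K : Set S) : Prop :=
  ∀ L : Set S, L ⊆ K → Subcontinuum L → L.Nontrivial → Decomposable L

/-- Any two points lie in a hereditarily decomposable subcontinuum. -/
def LambdaConnected (S : Type*) [TopologicalSpace S] : Prop :=
  ∀ p q : S, ∃ K : Set S, Subcontinuum K ∧ HereditarilyDecomposable K ∧ p ∈ K ∧ q ∈ K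

/-- the general argument -/
theorem not_lambda {X Y : Type*} [TopologicalSpace X] [TopologicalSpace Y] [CompactSpace X]
    [T2Space X] [CompactSpace Y] [T2Space Y] [Nonempty Y] (a b : X) (hab : a ≠ b)
    (hX : ∀ C : Set X, IsClosed C → IsPreconnected C → (interior C).Nonempty → C = univ)
    (hC : ∀ C : Set X, IsClosed C → IsPreconnected C → a ∈ C → b ∈ C → C = univ) :
    ¬ LambdaConnected (X × Y) := by
  intro hlam
  obtain ⟨y⟩ := ‹Nonempty Y›
  obtain ⟨K, hK, hhd, haK, hbK⟩ := hlam (a, y) (b, y)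
  have hproj : ∀ L : Set (X × Y), Subcontinuum L →
      IsClosed (Prod.fst '' L) ∧ IsPreconnected (Prod.fst '' L) := fun L hL =>
    ⟨(hL.1.image continuous_fst).isClosed,
      hL.2.isPreconnected.image _ continuous_fst.continuousOn⟩
  have hKX : Prod.fst '' K = (univ : Set X) :=
    hC _ (hproj K hK).1 (hproj K hK).2 ⟨_, haK, rfl⟩ ⟨_, hbK, rfl⟩
  let P : Set (Set (X × Y)) := {L | Subcontinuum L ∧ Prod.fst '' L = (univ : Set X)}
  obtain ⟨M, hMK, hM⟩ := zorn_superset_nonempty P (by
    intro c hcP hc hne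
    have him : Prod.fst '' (⋂₀ c) = (univ : Set X) :=
      Pool.Agent.V11214.Cont.image_sInter_chain continuous_fst hne hc
        (fun s hs => (hcP hs).1.1.isClosed) (fun s hs => (hcP hs).2)
    refine ⟨⋂₀ c, ⟨⟨?_, ?_, ?_⟩, him⟩, fun s hs => sInter_subset_of_mem hs⟩
    · exact (isClosed_sInter fun s hs => (hcP hs).1.1.isClosed).isCompact
    · have : a ∈ Prod.fst '' (⋂₀ c) := by rw [him]; trivial
      obtain ⟨z, hz, -⟩ := this
      exact ⟨z, hz⟩
    · exact Pool.Agent.V11214.Cont.isPreconnected_sInter_chain hne hc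
        (fun s hs => (hcP hs).1.1.isClosed) (fun s hs => (hcP hs).1.2.isPreconnected))
    K ⟨hK, hKX⟩
  have hMP : Subcontinuum M ∧ Prod.fst '' M = (univ : Set X) := hM.1
  have hnt : M.Nontrivial := by
    obtain ⟨za, hza, hza'⟩ : a ∈ Prod.fst '' M := by rw [hMP.2]; trivial
    obtain ⟨zb, hzb, hzb'⟩ : b ∈ Prod.fst '' M := by rw [hMP.2]; trivial
    refine ⟨za, hza, zb, hzb, ?_⟩
    rintro rfl
    exact hab (hza'.symm.trans hzb')
  obtain ⟨A, B, hA, hB, hAM, hBM, hABM⟩ := hhd M hMK hMP.1 hnt
  have hsubA : A ⊆ M := hABM ▸ subset_union_left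
  have hsubB : B ⊆ M := hABM ▸ subset_union_right
  have hAne : Prod.fst '' A ≠ (univ : Set X) := fun h =>
    hAM (subset_antisymm hsubA (hM.2 (⟨hA, h⟩ : A ∈ P) hsubA))
  have hBne : Prod.fst '' B ≠ (univ : Set X) := fun h =>
    hBM (subset_antisymm hsubB (hM.2 (⟨hB, h⟩ : B ∈ P) hsubB))
  apply hBne
  apply hX _ (hproj B hB).1 (hproj B hB).2
  obtain ⟨x, hx⟩ := nonempty_compl.mpr hAne
  refine ⟨x, interior_maximal (t := (Prod.fst '' A)ᶜ) ?_ (hproj A hA).1.isOpen_compl hx⟩
  intro w hw
  have : w ∈ Prod.fst '' M := by rw [hMP.2]; trivial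
  rw [← hABM, image_union] at this
  exact this.resolve_left hw

/-- There is a nondegenerate metric continuum `X` such that for no nonempty metric continuum `Y`
is the product `X × Y` lambda-connected. -/
theorem result : ∃ (X : Type) (_ : MetricSpace X), CompactSpace X ∧ ConnectedSpace X ∧
    Nontrivial X ∧ ∀ (Y : Type) [MetricSpace Y] [CompactSpace Y] [ConnectedSpace Y],
      ¬ LambdaConnected (X × Y) := by
  have hm := Pool.Agent.Results.MP_fe892a_gt.ClosedCounterexample.Sol.metrizable 2
  let X := Pool.Agent.Results.MP_fe892a_gt.ClosedCounterexample.Sol 2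
  have hconn : ConnectedSpace X :=
    Pool.Agent.Results.MP_fe892a_gt.ClosedCounterexample.Sol.connectedSpace two_ne_zero
  have hnt : Nontrivial X :=
    Pool.Agent.Results.MP_fe892a_gt.ClosedCounterexample.Sol.nontrivial two_ne_zero
  have hcomp : CompactSpace X := inferInstance
  have huniv : ∀ C : Set X, IsClosed C → IsPreconnected C → (interior C).Nonempty → C = univ :=
    fun C h1 h2 h3 =>
      Pool.Agent.Results.MP_fe892a_gt.ClosedCounterexample.Sol.eq_univ le_rfl h1 h2 h3
  refine ⟨X, TopologicalSpace.metrizableSpaceMetric X, hcomp, hconn, hnt, ?_⟩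
  intro Y _ _ _
  have : SecondCountableTopology X := inferInstance
  obtain ⟨q, hq⟩ := Pool.Agent.V11214.Cont.exists_other_composant huniv 0
  have hq0 : (0 : X) ≠ q := by
    rintro rfl
    have := hq {0} isClosed_singleton isPreconnected_singleton rfl rfl
    obtain ⟨x, hx⟩ := exists_ne (0 : X)
    have hx' : x ∈ ({0} : Set X) := by rw [this]; trivial
    exact hx hx'
  exact not_lambda 0 q hq0 huniv hq

end Pool.Agent.Results.MP_3d59a4_gt.SolenoidFactor
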